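import Mathlib
import Pool.Agent.Y902.GN.Hl3
import Pool.Agent.Y902.GN.Sc2

/-!
# Integral points of Weierstrass curves whose coordinates are generated by few integers

The Hall-Lang conjecture bounds `max |x| |y|` by a fixed power of `max |A| |B|` for the integral
points of all the elliptic curves `y ^ 2 = x ^ 3 + A * x + B`.  We consider all the curves with
`|A|, |B| ≤ X ^ E` simultaneously, and their integral points whose two coordinates are, up to sign,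
products of powers of the same `N` (unspecified) integers of size at most `X`.  Up to isomorphism
over `ℚ` of the pairs (curve, point), all but `X ^ ε` of these points satisfy
`max |x| |y| ≤ X ^ K` or `max |x| |y| > exp (X ^ δ)`.
-/

set_option autoImplicit false

namespace Pool.Agent.Results.MP_a1107e_nt.FewGeneratorPoints

open Pool.Agent.Y902.GN

/-- `x` and `y` are, up to sign, products of powers of the same `N` integers between `1` and
`X`. -/
def Generated (N X : ℕ) (x y : ℤ) : Prop :=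
  ∃ (η θ : ℤ) (b : Fin N → ℕ) (e f : Fin N → ℕ), |η| = 1 ∧ |θ| = 1 ∧
    (∀ j, 1 ≤ b j ∧ b j ≤ X) ∧ x = η * ∏ j, (b j : ℤ) ^ e j ∧ y = θ * ∏ j, (b j : ℤ) ^ f j

/-- `(x, y)` is an integral point of the elliptic curve `y ^ 2 = x ^ 3 + A * x + B`, where
`|A|, |B| ≤ X ^ E`, with generated coordinates, such that `X ^ K < max |x| |y| ≤ exp (X ^ δ)`. -/
structure LargePoint (N E K : ℕ) (δ : ℝ) (X : ℕ) (A B x y : ℤ) : Prop where
  A_le : |A| ≤ (X : ℤ) ^ E
  B_le : |B| ≤ (X : ℤ) ^ E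
  disc : 4 * A ^ 3 + 27 * B ^ 2 ≠ 0
  eqn : y ^ 2 = x ^ 3 + A * x + B
  gen : Generated N X x y
  large : (X : ℤ) ^ K < max |x| |y|
  bound : ((max |x| |y| : ℤ) : ℝ) ≤ Real.exp ((X : ℝ) ^ δ)

/-- The isomorphism with parameter `r` maps the second curve and point to the first ones. -/
def Scales (r : ℚ) (A B x y A' B' x' y' : ℤ) : Prop :=
  (A : ℚ) = r ^ 4 * A' ∧ (B : ℚ) = r ^ 6 * B' ∧ (x : ℚ) = r ^ 2 * x' ∧ (y : ℚ) = r ^ 3 * y'

theorem Generated.ne {N X : ℕ} {x y : ℤ} (h : Generated N X x y) : x ≠ 0 ∧ y ≠ 0 := by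
  obtain ⟨η, θ, b, e, f, hη, hθ, hb, hx, hy⟩ := h
  have hb0 : ∀ j, (b j : ℤ) ≠ 0 := fun j => by
    have := (hb j).1
    exact_mod_cast (by omega : b j ≠ 0)
  constructor
  · rw [hx]
    refine mul_ne_zero ?_ (Finset.prod_ne_zero_iff.2 fun j _ => pow_ne_zero _ (hb0 j))
    rintro rfl
    rw [abs_zero] at hη
    exact zero_ne_one hη
  · rw [hy]
    refine mul_ne_zero ?_ (Finset.prod_ne_zero_iff.2 fun j _ => pow_ne_zero _ (hb0 j))
    rintro rfl
    rw [abs_zero] at hθ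
    exact zero_ne_one hθ

/-- the associated point of the general theorem -/
theorem LargePoint.hlPt {N E K : ℕ} {δ : ℝ} {X : ℕ} {A B x y : ℤ}
    (h : LargePoint N E (3 * K + E + 2) δ X A B x y) (hX : 2 ≤ X) :
    HlPt 3 N E K δ X ![B, A, 0, 1] x (y ^ 2) := by
  have hX1 : (1 : ℤ) ≤ (X : ℤ) := by exact_mod_cast (by omega : 1 ≤ X)
  refine ⟨fun i => ?_, ?_, ?_, ?_, ?_, ?_⟩
  · fin_cases i
    · exact h.B_le
    · exact h.A_le
    · simp
    · simpa using one_le_pow₀ hX1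
  · have h1 : A ≠ 0 ∨ B ≠ 0 := by
      by_contra hcon
      push Not at hcon
      apply h.disc
      rw [hcon.1, hcon.2]
      norm_num
    rcases h1 with h1 | h1
    · exact ⟨1, 3, by decide, by simpa using h1, by simp⟩
    · exact ⟨0, 3, by decide, by simpa using h1, by simp⟩
  · rw [h.eqn]
    simp [Fin.sum_univ_succ]
    ring
  · by_contra hcon
    push Not at hcon
    have h0 := h.large
    have hK1 : (1 : ℤ) ≤ (X : ℤ) ^ K := one_le_pow₀ hX1
    have hE1 : (1 : ℤ) ≤ (X : ℤ) ^ E := one_le_pow₀ hX1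
    have e1 : |y| ≤ y ^ 2 := by
      rw [← sq_abs y]
      have := Int.one_le_abs h.gen.ne.2
      nlinarith
    have e2 : y ^ 2 ≤ 3 * ((X : ℤ) ^ K) ^ 3 * (X : ℤ) ^ E := by
      calc y ^ 2 ≤ |y ^ 2| := le_abs_self _
        _ = |x ^ 3 + A * x + B| := by rw [h.eqn]
        _ ≤ |x ^ 3| + |A * x| + |B| := (abs_add_le _ _).trans (add_le_add_left (abs_add_le _ _) _)
        _ = |x| ^ 3 + |A| * |x| + |B| := by rw [abs_pow, abs_mul]
        _ ≤ ((X : ℤ) ^ K) ^ 3 + (X : ℤ) ^ E * (X : ℤ) ^ K + (X : ℤ) ^ E :=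
            add_le_add (add_le_add (pow_le_pow_left₀ (abs_nonneg _) hcon _)
              (mul_le_mul h.A_le hcon (abs_nonneg _) (by positivity))) h.B_le
        _ ≤ _ := by
            have g1 : (X : ℤ) ^ K ≤ ((X : ℤ) ^ K) ^ 3 := le_self_pow₀ hK1 (by norm_num)
            have g2 : (1 : ℤ) ≤ ((X : ℤ) ^ K) ^ 3 := one_le_pow₀ hK1
            have g3 : ((X : ℤ) ^ K) ^ 3 ≤ ((X : ℤ) ^ K) ^ 3 * (X : ℤ) ^ E :=
              le_mul_of_one_le_right (by positivity) hE1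
            have g4 : (X : ℤ) ^ E * (X : ℤ) ^ K ≤ ((X : ℤ) ^ K) ^ 3 * (X : ℤ) ^ E := by
              rw [mul_comm]
              exact mul_le_mul_of_nonneg_right g1 (by positivity)
            have g5 : (X : ℤ) ^ E ≤ ((X : ℤ) ^ K) ^ 3 * (X : ℤ) ^ E :=
              le_mul_of_one_le_left (by positivity) g2
            linarith
    have e3 : 3 * ((X : ℤ) ^ K) ^ 3 * (X : ℤ) ^ E ≤ (X : ℤ) ^ (3 * K + E + 2) := by
      have g1 : (3 : ℤ) ≤ (X : ℤ) ^ 2 := by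
        have : (2 : ℤ) ≤ (X : ℤ) := by exact_mod_cast hX
        nlinarith
      calc 3 * ((X : ℤ) ^ K) ^ 3 * (X : ℤ) ^ E ≤ (X : ℤ) ^ 2 * ((X : ℤ) ^ K) ^ 3 * (X : ℤ) ^ E := by
            gcongr
        _ = (X : ℤ) ^ (3 * K + E + 2) := by
            rw [← pow_mul, ← pow_add, ← pow_add]
            congr 1
            ring
    have e4 : |x| ≤ (X : ℤ) ^ (3 * K + E + 2) :=
      hcon.trans (pow_le_pow_right₀ hX1 (by omega))
    exact absurd h0 (not_lt.2 (max_le e4 (e1.trans (e2.trans e3))))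
  · refine le_trans ?_ h.bound
    exact_mod_cast le_max_left _ _
  · obtain ⟨η, θ, b, e, f, hη, hθ, hb, hx, hy⟩ := h.gen
    refine ⟨η, θ ^ 2, b, e, fun j => f j * 2, hη, by rw [abs_pow, hθ, one_pow], hb, hx, ?_⟩
    rw [hy, mul_pow, ← Finset.prod_pow]
    congr 1
    exact Finset.prod_congr rfl fun j _ => (pow_mul _ _ _).symm

/-- the equivalence -/
theorem scales_of_hlEq {A B x y A' B' x' y' : ℤ} (hx : x ≠ 0) (hy : y ≠ 0) (hx' : x' ≠ 0)
    (hy' : y' ≠ 0)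
    (h : HlEq ![B, A, 0, 1] x (y ^ 2) ![B', A', 0, 1] x' (y' ^ 2)) :
    ∃ r : ℚ, r ≠ 0 ∧ Scales r A B x y A' B' x' y' := by
  obtain ⟨ρ, κ, h1, h2, h3⟩ := h
  have hxq : (x : ℚ) ≠ 0 := by exact_mod_cast hx
  have hyq : (y : ℚ) ≠ 0 := by exact_mod_cast hy
  have hxq' : (x' : ℚ) ≠ 0 := by exact_mod_cast hx'
  have hyq' : (y' : ℚ) ≠ 0 := by exact_mod_cast hy'
  have c0 : (B : ℚ) = κ * B' := by
    have := h3 0
    simpa using this
  have c1 : (A : ℚ) * ρ = κ * A' := by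
    have := h3 1
    simpa using this
  have c3 : ρ ^ 3 = κ := by
    have := h3 3
    simpa using this
  have hρ : ρ ≠ 0 := by
    rintro rfl
    rw [zero_mul] at h1
    exact hxq h1
  obtain ⟨r, hr⟩ : ∃ r : ℚ, r = (y : ℚ) / y' / ρ := ⟨_, rfl⟩
  have hy2 : (y : ℚ) ^ 2 = κ * (y' : ℚ) ^ 2 := by exact_mod_cast h2
  have r2 : r ^ 2 = ρ := by
    rw [hr, div_pow, div_pow, hy2, ← c3]
    field_simp
  have r1 : (y : ℚ) = r * ρ * y' := by
    rw [hr]
    field_simp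
  refine ⟨r, ?_, ?_, ?_, ?_, ?_⟩
  · rw [hr]
    exact div_ne_zero (div_ne_zero hyq hyq') hρ
  · refine mul_right_cancel₀ hρ ?_
    rw [c1, ← c3, ← r2]
    ring
  · rw [c0, ← c3, ← r2]
    ring
  · rw [h1, r2]
  · rw [r1, ← r2]
    ring

/-- **Few large integral points with generated coordinates.** -/
theorem result : ∀ (N E : ℕ) (ε : ℝ), 0 < ε → ∃ (K : ℕ) (δ : ℝ), 0 < δ ∧ ∀ X : ℕ, 2 ≤ X →
    ∃ S : Finset (ℤ × ℤ × ℤ × ℤ), (S.card : ℝ) ≤ (X : ℝ) ^ ε ∧
      (∀ s ∈ S, LargePoint N E K δ X s.1 s.2.1 s.2.2.1 s.2.2.2) ∧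
      ∀ A B x y : ℤ, LargePoint N E K δ X A B x y →
        ∃ s ∈ S, ∃ r : ℚ, r ≠ 0 ∧ Scales r A B x y s.1 s.2.1 s.2.2.1 s.2.2.2 := by
  classical
  intro N E ε hε
  obtain ⟨K, δ, hδ, H⟩ := hl 3 N E ε hε
  refine ⟨3 * K + E + 2, δ, hδ, fun X hX => ?_⟩
  obtain ⟨T, hT1, hT2, hT3⟩ := max_sep
    {s : ℤ × ℤ × ℤ × ℤ | LargePoint N E (3 * K + E + 2) δ X s.1 s.2.1 s.2.2.1 s.2.2.2}
    (fun s t => ∃ r : ℚ, r ≠ 0 ∧ Scales r s.1 s.2.1 s.2.2.1 s.2.2.2 t.1 t.2.1 t.2.2.1 t.2.2.2)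
    (fun s => ⟨1, one_ne_zero, by simp [Scales]⟩)
    (fun s t => by
      rintro ⟨r, hr, h1, h2, h3, h4⟩
      refine ⟨r⁻¹, inv_ne_zero hr, ?_, ?_, ?_, ?_⟩
      · rw [h1]; field_simp
      · rw [h2]; field_simp
      · rw [h3]; field_simp
      · rw [h4]; field_simp)
    ((X : ℝ) ^ ε)
    (fun T h1 h2 => by
      obtain ⟨g, hg⟩ : ∃ g : ℤ × ℤ × ℤ × ℤ → (Fin (3 + 1) → ℤ) × ℤ × ℤ, g = fun s =>
        (![s.2.1, s.1, 0, 1], s.2.2.1, s.2.2.2 ^ 2) := ⟨_, rfl⟩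
      have key : ∀ s ∈ T, ∀ t ∈ T, HlEq (g s).1 (g s).2.1 (g s).2.2 (g t).1 (g t).2.1 (g t).2.2 →
          s = t := by
        intro s hs t ht hst
        by_contra hne
        refine h2 s hs t ht hne ?_
        rw [hg] at hst
        have a1 := (h1 s hs).gen.ne
        have a2 := (h1 t ht).gen.ne
        exact scales_of_hlEq a1.1 a1.2 a2.1 a2.2 hst
      have hrefl : ∀ s, HlEq (g s).1 (g s).2.1 (g s).2.2 (g s).1 (g s).2.1 (g s).2.2 := fun s =>
        ⟨1, 1, (one_mul _).symm, (one_mul _).symm, fun i => by rw [one_pow, mul_one, one_mul]⟩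
      have hinj : Set.InjOn g (T : Set (ℤ × ℤ × ℤ × ℤ)) := by
        intro s hs t ht hst
        refine key s (Finset.mem_coe.1 hs) t (Finset.mem_coe.1 ht) ?_
        rw [hst]
        exact hrefl t
      rw [← Finset.card_image_of_injOn hinj]
      refine H X hX _ ?_ ?_
      · intro t ht
        obtain ⟨s, hs, rfl⟩ := Finset.mem_image.1 ht
        rw [hg]
        exact (h1 s hs).hlPt hX
      · intro t ht t' ht' hne
        obtain ⟨s, hs, rfl⟩ := Finset.mem_image.1 ht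
        obtain ⟨s', hs', rfl⟩ := Finset.mem_image.1 ht'
        intro hcon
        exact hne (by rw [key s hs s' hs' hcon]))
  exact ⟨T, hT2, hT1, fun A B x y h => hT3 (A, B, x, y) h⟩

end Pool.Agent.Results.MP_a1107e_nt.FewGeneratorPoints
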