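import Mathlib
import Pool.Agent.Y674.HL.Sharp3

/-!
The Hall-Lang conjecture with the optimal exponents for the integral points which are divisible
by two over a fixed number field.
-/

set_option autoImplicit false

namespace Pool.Agent.Results.MP_a1107e_nt.HalfOverNumberField

open Pool.Agent.Y674.HL

/-- Let `K` be a number field. There is a constant `C` such that every integral point `(x, y)` of
every curve `y ^ 2 = x ^ 3 + A x + B` (`A`, `B` integers, nonsingular), which is the double of a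
point `(X, Y)` of the curve with coordinates in `K` (`l` is the slope of the tangent line at
`(X, Y)`), satisfies `|x| ≤ C H ^ 2` and `|y| ≤ C H ^ 3`, where `H = max |A| |B|`. Both exponents
are best possible: for arbitrarily large `|x|` there are such points with `H ^ 2 ≤ 2 |x|` and
`H ^ 3 ≤ 2 |y|`. -/
theorem result (K : Type) [Field K] [NumberField K] :
    (∃ C : ℝ, ∀ A B x y : ℤ, 4 * A ^ 3 + 27 * B ^ 2 ≠ 0 → y ^ 2 = x ^ 3 + A * x + B →
      (∃ X Y l : K, Y ^ 2 = X ^ 3 + A * X + B ∧ 2 * Y * l = 3 * X ^ 2 + A ∧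
        l ^ 2 - 2 * X = x ∧ l * (X - x) - Y = y) →
      |(x : ℝ)| ≤ C * ((max |A| |B| : ℤ) : ℝ) ^ 2 ∧
      |(y : ℝ)| ≤ C * ((max |A| |B| : ℤ) : ℝ) ^ 3) ∧
    (∀ N : ℤ, ∃ A B x y : ℤ, 4 * A ^ 3 + 27 * B ^ 2 ≠ 0 ∧ y ^ 2 = x ^ 3 + A * x + B ∧
      (∃ X Y l : K, Y ^ 2 = X ^ 3 + A * X + B ∧ 2 * Y * l = 3 * X ^ 2 + A ∧
        l ^ 2 - 2 * X = x ∧ l * (X - x) - Y = y) ∧
      N ≤ |x| ∧ (max |A| |B|) ^ 2 ≤ 2 * |x| ∧ (max |A| |B|) ^ 3 ≤ 2 * |y|) :=
  ⟨part1 K, sharp1 K⟩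

end Pool.Agent.Results.MP_a1107e_nt.HalfOverNumberField
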