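import Mathlib
import Pool.Agent.Y674.HL.Sharp3

/-!
The Hall-Lang conjecture with the optimal exponents, up to epsilon, for the integral points which
are divisible by two over a fixed number field, but not over the rational numbers.
-/

set_option autoImplicit false

namespace Pool.Agent.Results.MP_a1107e_nt.NoRationalHalf

open Pool.Agent.Y674.HL

/-- Let `K` be a number field and `ε > 0`. There is a constant `C` such that every integral point
`(x, y)` of every curve `y ^ 2 = x ^ 3 + A x + B` (`A`, `B` integers, nonsingular), which is the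
double of a point `(X, Y)` of the curve with coordinates in `K` (`l` is the slope of the tangent
line at `(X, Y)`), but not of a point with rational coordinates, satisfies
`|x| ≤ C H ^ (4 / 3 + ε)` and `|y| ≤ C H ^ (2 + ε)`, where `H = max |A| |B|`. If `K` contains
square roots of `2` and `3`, then the exponents `4 / 3` and `2` cannot be replaced by smaller
ones: for arbitrarily large `|x|` there are such points with `H ^ 4 ≤ 10 ^ 22 |x| ^ 3` and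
`H ^ 2 ≤ 10 ^ 11 |y|`. -/
theorem result (K : Type) [Field K] [NumberField K] :
    (∀ ε : ℝ, 0 < ε →
      ∃ C : ℝ, ∀ A B x y : ℤ, 4 * A ^ 3 + 27 * B ^ 2 ≠ 0 → y ^ 2 = x ^ 3 + A * x + B →
      (∃ X Y l : K, Y ^ 2 = X ^ 3 + A * X + B ∧ 2 * Y * l = 3 * X ^ 2 + A ∧
        l ^ 2 - 2 * X = x ∧ l * (X - x) - Y = y) →
      (¬ ∃ X Y l : ℚ, Y ^ 2 = X ^ 3 + A * X + B ∧ 2 * Y * l = 3 * X ^ 2 + A ∧
        l ^ 2 - 2 * X = x ∧ l * (X - x) - Y = y) →
      |(x : ℝ)| ≤ C * ((max |A| |B| : ℤ) : ℝ) ^ (4 / 3 + ε) ∧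
      |(y : ℝ)| ≤ C * ((max |A| |B| : ℤ) : ℝ) ^ (2 + ε)) ∧
    (∀ a b : K, a ^ 2 = 2 → b ^ 2 = 3 → ∀ N : ℕ, ∃ A B x y : ℤ, 4 * A ^ 3 + 27 * B ^ 2 ≠ 0 ∧
      y ^ 2 = x ^ 3 + A * x + B ∧
      (∃ X Y l : K, Y ^ 2 = X ^ 3 + A * X + B ∧ 2 * Y * l = 3 * X ^ 2 + A ∧
        l ^ 2 - 2 * X = x ∧ l * (X - x) - Y = y) ∧
      (¬ ∃ X Y l : ℚ, Y ^ 2 = X ^ 3 + A * X + B ∧ 2 * Y * l = 3 * X ^ 2 + A ∧
        l ^ 2 - 2 * X = x ∧ l * (X - x) - Y = y) ∧
      (N : ℤ) ≤ |x| ∧ (max |A| |B|) ^ 4 ≤ 10 ^ 22 * |x| ^ 3 ∧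
      (max |A| |B|) ^ 2 ≤ 10 ^ 11 * |y|) :=
  ⟨part2 K, fun a b ha hb N => sharp2 a b ha hb N⟩

end Pool.Agent.Results.MP_a1107e_nt.NoRationalHalf
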