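import Mathlib
import Pool.Agent.Y674.TR.Fin2

/-!
The Hall-Lang conjecture for the integral points which are divisible over a fixed number field.
-/

set_option autoImplicit false

namespace Pool.Agent.Results.MP_a1107e_nt.PartsOverNumberField

open Pool.Agent.Y674.TR

/-- For every `m ≥ 2` there are an exponent `M` and a constant `C₀` such that for every number
field `K` there is a constant `C`, equal to `C₀` if `K` has degree less than `m ^ 2`, with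
`|x|, |y| ≤ C max(|A|, |B|) ^ M` for every integral point `(x, y)` of every nonsingular curve
`y ^ 2 = x ^ 3 + A x + B` (`A`, `B` integers) which is `m` times a point of the curve with
coordinates in `K`. -/
theorem result : ∀ m : ℕ, 2 ≤ m → ∃ (M : ℕ) (C₀ : ℝ),
    ∀ (K : Type) [Field K] [NumberField K] [DecidableEq K],
    ∃ C : ℝ, (Module.finrank ℚ K < m ^ 2 → C = C₀) ∧
    ∀ A B x y : ℤ, 4 * A ^ 3 + 27 * B ^ 2 ≠ 0 → y ^ 2 = x ^ 3 + A * x + B →
      (∃ (h : (E K A B).Nonsingular (x : K) (y : K)) (Q : (E K A B).Point),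
        m • Q = WeierstrassCurve.Affine.Point.some (x : K) (y : K) h) →
      |(x : ℝ)| ≤ C * ((max |A| |B| : ℤ) : ℝ) ^ M ∧
      |(y : ℝ)| ≤ C * ((max |A| |B| : ℤ) : ℝ) ^ M := by
  intro m hm
  obtain ⟨M₁, h₁⟩ := all_fixed m hm
  obtain ⟨M₂, C₂, h₂⟩ := all_small m hm
  refine ⟨max M₁ M₂, |C₂|, ?_⟩
  intro K _ _ _
  obtain ⟨C₁, h₁⟩ := h₁ K
  have key : ∀ (A B : ℤ) (C : ℝ) (N : ℕ) (t : ℝ), 4 * A ^ 3 + 27 * B ^ 2 ≠ 0 → N ≤ max M₁ M₂ →
      t ≤ C * ((max |A| |B| : ℤ) : ℝ) ^ N → t ≤ |C| * ((max |A| |B| : ℤ) : ℝ) ^ (max M₁ M₂) := by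
    intro A B C N t h0 hN ht
    have h1 : (1 : ℤ) ≤ max |A| |B| := by
      by_contra hlt
      have h2 : max |A| |B| ≤ 0 := by omega
      have hA : |A| ≤ 0 := le_trans (le_max_left _ _) h2
      have hB : |B| ≤ 0 := le_trans (le_max_right _ _) h2
      have hA' : A = 0 := abs_nonpos_iff.mp hA
      have hB' : B = 0 := abs_nonpos_iff.mp hB
      apply h0
      rw [hA', hB']
      norm_num
    have h2 : (1 : ℝ) ≤ ((max |A| |B| : ℤ) : ℝ) := by exact_mod_cast h1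
    have h3 : ((max |A| |B| : ℤ) : ℝ) ^ N ≤ ((max |A| |B| : ℤ) : ℝ) ^ (max M₁ M₂) :=
      pow_le_pow_right₀ h2 hN
    have h4 : (0 : ℝ) ≤ ((max |A| |B| : ℤ) : ℝ) ^ N := by positivity
    calc t ≤ C * ((max |A| |B| : ℤ) : ℝ) ^ N := ht
      _ ≤ |C| * ((max |A| |B| : ℤ) : ℝ) ^ N := mul_le_mul_of_nonneg_right (le_abs_self C) h4
      _ ≤ |C| * ((max |A| |B| : ℤ) : ℝ) ^ (max M₁ M₂) :=
        mul_le_mul_of_nonneg_left h3 (abs_nonneg C)
  by_cases hK : Module.finrank ℚ K < m ^ 2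
  · refine ⟨|C₂|, fun _ => rfl, ?_⟩
    intro A B x y h0 hxy hQ
    obtain ⟨a, b⟩ := h₂ K hK A B x y h0 hxy hQ
    exact ⟨key A B C₂ M₂ _ h0 (le_max_right _ _) a, key A B C₂ M₂ _ h0 (le_max_right _ _) b⟩
  · refine ⟨|C₁|, fun h => absurd h hK, ?_⟩
    intro A B x y h0 hxy hQ
    obtain ⟨a, b⟩ := h₁ A B x y h0 hxy hQ
    exact ⟨key A B C₁ M₁ _ h0 (le_max_left _ _) a, key A B C₁ M₁ _ h0 (le_max_left _ _) b⟩

end Pool.Agent.Results.MP_a1107e_nt.PartsOverNumberField
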